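import Pool.Graph.R_pool_sql_team_seeded_2aa45f1a.Q265.KT.Rel

/-!
Counting labelled copies, averages over random maps and random edge colourings.
-/

set_option autoImplicit false
set_option maxHeartbeats 400000
open Finset SimpleGraph

namespace Pool.Agent.KS6_59.TS

open Pool.Agent.Q265.KT

/-! ### labelled copies as embeddings -/

/-- labelled copies of `H` in a relation `A` on `V` -/
def Emb {W V : Type} (H : SimpleGraph W) (A : V → V → Prop) : Type :=
  {φ : W ↪ V // ∀ a b, H.Adj a b → A (φ a) (φ b)}

instance {W V : Type} [Finite W] [Finite V] (H : SimpleGraph W) (A : V → V → Prop) :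
    Finite (Emb H A) := by
  have : Finite (W ↪ V) := inferInstance
  exact Subtype.finite

theorem lcc_emb {V W : Type} [Fintype V] [Fintype W] (G : SimpleGraph V) (H : SimpleGraph W) :
    G.labelledCopyCount H = Nat.card (Emb H G.Adj) := by
  rw [lcc_eq]
  refine Nat.card_congr
    { toFun := fun c => ⟨⟨fun w => c w, c.injective⟩, fun a b h => c.toHom.map_adj h⟩
      invFun := fun φ => ⟨⟨φ.1, fun {a b} h => φ.2 a b h⟩, φ.1.injective⟩
      left_inv := fun c => ?_
      right_inv := fun φ => ?_ }
  · apply Copy.ext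
    intro a
    rfl
  · apply Subtype.ext
    rfl

theorem copy_le_emb {V W : Type} [Fintype V] [Fintype W] (G : SimpleGraph V) (H : SimpleGraph W) :
    G.copyCount H ≤ Nat.card (Emb H G.Adj) := by
  rw [← lcc_emb]
  exact copyCount_le_labelledCopyCount

theorem emb_le_copy {V W : Type} [Fintype V] [Fintype W] (G : SimpleGraph V) (H : SimpleGraph W) :
    Nat.card (Emb H G.Adj) ≤ (Fintype.card W).factorial * G.copyCount H := by
  rw [← lcc_emb]
  exact labelled_le G H

/-! ### functions with a prescribed restriction -/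

open Classical in
/-- a function on `V` is a function on `W` and a function on the complement of the range -/
noncomputable def split {W V Y : Type} (φ : W ↪ V) :
    (V → Y) ≃ (W → Y) × ({v : V // v ∉ Set.range φ} → Y) where
  toFun f := (fun w => f (φ w), fun v => f v)
  invFun p v := if h : v ∈ Set.range φ then p.1 h.choose else p.2 ⟨v, h⟩
  left_inv := by
    intro f
    funext v
    by_cases h : v ∈ Set.range φ
    · simp only [h, dite_true]
      rw [h.choose_spec]
    · simp only [h, dite_false]
  right_inv := by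
    rintro ⟨g, k⟩
    refine Prod.ext ?_ ?_
    · funext w
      have h : φ w ∈ Set.range φ := ⟨w, rfl⟩
      simp only [h, dite_true]
      congr 1
      exact φ.injective h.choose_spec
    · funext v
      simp only [v.2, dite_false]

theorem split_fst {W V Y : Type} (φ : W ↪ V) (f : V → Y) : (split φ f).1 = fun w => f (φ w) := rfl

theorem card_restr {W V Y : Type} [Fintype W] [Fintype V] [Fintype Y] (φ : W ↪ V)
    (P : (W → Y) → Prop) :
    Nat.card {f : V → Y // P (fun w => f (φ w))} * Fintype.card Y ^ Fintype.card W =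
      Nat.card {g : W → Y // P g} * Fintype.card Y ^ Fintype.card V := by
  classical
  have h1 : Nat.card {f : V → Y // P (fun w => f (φ w))} =
      Nat.card ({g : W → Y // P g} × ({v : V // v ∉ Set.range φ} → Y)) := by
    refine Nat.card_congr ?_
    refine (Equiv.subtypeEquiv (split φ) (q := fun p => P p.1) (fun f => Iff.rfl)).trans ?_
    exact
      { toFun := fun p => (⟨p.1.1, p.2⟩, p.1.2)
        invFun := fun p => ⟨(p.1.1, p.2), p.1.2⟩
        left_inv := fun p => rfl
        right_inv := fun p => rfl }
  have h2 : Fintype.card Y ^ Fintype.card V = Fintype.card Y ^ Fintype.card W *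
      Nat.card ({v : V // v ∉ Set.range φ} → Y) := by
    have h3 := Nat.card_congr (split (Y := Y) φ)
    rw [Nat.card_prod, Nat.card_fun, Nat.card_fun, Nat.card_eq_fintype_card,
      Nat.card_eq_fintype_card, Nat.card_eq_fintype_card] at h3
    exact h3
  rw [h1, Nat.card_prod, h2]
  ring

/-! ### the sum over all maps of the number of copies -/

theorem card_filter_eq {α : Type} [Fintype α] (P : α → Prop) [DecidablePred P] :
    (univ.filter P).card = Nat.card {a // P a} := by
  rw [Nat.card_eq_fintype_card, Fintype.card_subtype]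

/-- double counting: copies of `H` in a family of relations `A c`, `c ∈ C` -/
theorem double_count {W V C : Type} [Fintype W] [Fintype V] [Fintype C] (H : SimpleGraph W)
    (A : C → V → V → Prop) :
    ∑ c, Nat.card (Emb H (A c)) =
      ∑ φ : W ↪ V, Nat.card {c : C // ∀ a b, H.Adj a b → A c (φ a) (φ b)} := by
  classical
  have h1 : ∀ c, Nat.card (Emb H (A c)) =
      ∑ φ : W ↪ V, if (∀ a b, H.Adj a b → A c (φ a) (φ b)) then 1 else 0 := by
    intro c
    rw [← Finset.card_filter, card_filter_eq]
    rfl
  have h2 : ∀ φ : W ↪ V, Nat.card {c : C // ∀ a b, H.Adj a b → A c (φ a) (φ b)} =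
      ∑ c, if (∀ a b, H.Adj a b → A c (φ a) (φ b)) then 1 else 0 := by
    intro φ
    rw [← Finset.card_filter, card_filter_eq]
  simp_rw [h1, h2]
  exact Finset.sum_comm

/-- homomorphisms of `H` to a relation -/
def Hm {W Y : Type} (H : SimpleGraph W) (Q : Y → Y → Prop) : Type :=
  {g : W → Y // ∀ a b, H.Adj a b → Q (g a) (g b)}

instance {W Y : Type} [Finite W] [Finite Y] (H : SimpleGraph W) (Q : Y → Y → Prop) :
    Finite (Hm H Q) := Subtype.finite

/-- the graph on `V` defined by a map to a relation -/
def pullG {V Y : Type} (Q : Y → Y → Prop) (hQ : ∀ x y, Q x y → Q y x) (f : V → Y) :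
    SimpleGraph V where
  Adj u v := u ≠ v ∧ Q (f u) (f v)
  symm := ⟨fun _ _ h => ⟨h.1.symm, hQ _ _ h.2⟩⟩
  loopless := ⟨fun _ h => h.1 rfl⟩

theorem sum_pull {W V Y : Type} [Fintype W] [Fintype V] [DecidableEq V] [Fintype Y] (H : SimpleGraph W)
    (Q : Y → Y → Prop) (hQ : ∀ x y, Q x y → Q y x) :
    (∑ f : V → Y, Nat.card (Emb H (pullG Q hQ f).Adj)) * Fintype.card Y ^ Fintype.card W =
      Fintype.card (W ↪ V) * (Nat.card (Hm H Q) * Fintype.card Y ^ Fintype.card V) := by
  classical
  rw [double_count H (fun f : V → Y => (pullG Q hQ f).Adj), Finset.sum_mul]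
  have h1 : ∀ φ : W ↪ V, Nat.card {f : V → Y // ∀ a b, H.Adj a b → (pullG Q hQ f).Adj (φ a) (φ b)} *
      Fintype.card Y ^ Fintype.card W = Nat.card (Hm H Q) * Fintype.card Y ^ Fintype.card V := by
    intro φ
    have h2 := card_restr (Y := Y) φ (fun g => ∀ a b, H.Adj a b → Q (g a) (g b))
    have h3 : {f : V → Y // ∀ a b, H.Adj a b → (pullG Q hQ f).Adj (φ a) (φ b)} =
        {f : V → Y // ∀ a b, H.Adj a b → Q (f (φ a)) (f (φ b))} := by
      congr 1
      funext f
      apply propext
      constructor
      · intro h a b hab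
        exact (h a b hab).2
      · intro h a b hab
        exact ⟨fun e => hab.ne (φ.injective e), h a b hab⟩
    rw [h3]
    exact h2
  rw [Finset.sum_congr rfl (fun φ _ => h1 φ), Finset.sum_const, Finset.card_univ, smul_eq_mul]

/-- tensor power of a relation -/
def tp {X : Type} (R : X → X → Prop) (m : ℕ) (a b : Fin m → X) : Prop := ∀ l, R (a l) (b l)

theorem tp_symm {X : Type} (R : X → X → Prop) (hR : ∀ x y, R x y → R y x) (m : ℕ) :
    ∀ x y, tp R m x y → tp R m y x := fun _ _ h l => hR _ _ (h l)

theorem hm_tp {W X : Type} (H : SimpleGraph W) (R : X → X → Prop) (m : ℕ) :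
    Nat.card (Hm H (tp R m)) = Nat.card (Hm H R) ^ m := by
  have h1 : Nat.card (Hm H R) ^ m = Nat.card (Fin m → Hm H R) := by
    rw [Nat.card_fun]
    simp
  rw [h1]
  exact Nat.card_congr
    { toFun := fun g l => ⟨fun w => g.1 w l, fun a b h => g.2 a b h l⟩
      invFun := fun g => ⟨fun w l => (g l).1 w, fun a b h l => (g l).2 a b h⟩
      left_inv := fun g => rfl
      right_inv := fun g => rfl }

theorem hm_tri {X : Type} (R : X → X → Prop) (hR : ∀ x y, R x y → R y x) :
    Nat.card (Hm (⊤ : SimpleGraph (Fin 3)) R) = Nat.card (TT R) := by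
  refine Nat.card_congr
    { toFun := fun g => ⟨(g.1 0, g.1 1, g.1 2), g.2 0 1 (by simp), g.2 1 2 (by simp),
        g.2 0 2 (by simp)⟩
      invFun := fun τ => ⟨![τ.1.1, τ.1.2.1, τ.1.2.2], ?_⟩
      left_inv := ?_
      right_inv := fun τ => rfl }
  · intro i j hij
    have h := τ.2
    fin_cases i <;> fin_cases j <;> first | exact absurd rfl hij | skip
    · exact h.1
    · exact h.2.2
    · exact hR _ _ h.1
    · exact h.2.1
    · exact hR _ _ h.2.2
    · exact hR _ _ h.2.1
  · intro g
    apply Subtype.ext
    funext i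
    fin_cases i <;> rfl

theorem hm_bip {X : Type} (R : X → X → Prop) (hR : ∀ x y, R x y → R y x) (t : ℕ) :
    Nat.card (Hm (completeBipartiteGraph (Fin 3) (Fin t)) R) = Nat.card (HH R t) := by
  refine Nat.card_congr
    { toFun := fun g => ⟨g.1, fun i j => g.2 _ _ (by simp [completeBipartiteGraph])⟩
      invFun := fun τ => ⟨τ.1, ?_⟩
      left_inv := fun g => rfl
      right_inv := fun τ => rfl }
  · intro a b hab
    rcases a with i | i <;> rcases b with j | j
    · simp [completeBipartiteGraph] at hab
    · exact τ.2 i j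
    · exact hR _ _ (τ.2 j i)
    · simp [completeBipartiteGraph] at hab

end Pool.Agent.KS6_59.TS
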