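import Pool.Agent.KS6_59.TS.Cnt

/-!
Dense graphs on every number of vertices with few copies of `K_{3,t}`.
-/

set_option autoImplicit false
set_option maxHeartbeats 400000
open Finset SimpleGraph

namespace Pool.Agent.KS6_59.TS

open Pool.Agent.Q265.KT

/-- labelled triangles -/
noncomputable def L3 {V : Type} (G : SimpleGraph V) : ℕ :=
  Nat.card (Emb (⊤ : SimpleGraph (Fin 3)) G.Adj)

/-- labelled copies of `K_{3,t}` -/
noncomputable def LB {V : Type} (t : ℕ) (G : SimpleGraph V) : ℕ :=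
  Nat.card (Emb (completeBipartiteGraph (Fin 3) (Fin t)) G.Adj)

/-- choosing a good element by averages -/
theorem pick {ι : Type} [Fintype ι] [Nonempty ι] (X Z : ι → ℝ) (hX : ∀ i, 0 ≤ X i)
    (hZ : ∀ i, 0 ≤ Z i) (t : ℕ) (ht : 1 ≤ t) (a b : ℝ) (ha : 0 < a) (hb : 0 < b)
    (h1 : ∑ i, X i = Fintype.card ι * a) (h2 : ∑ i, Z i ≤ Fintype.card ι * b) :
    ∃ i, a / 2 ≤ X i ∧ Z i < 3 * b / a ^ t * X i ^ t := by
  by_contra hcon
  push Not at hcon
  set N : ℝ := (Fintype.card ι : ℝ) with hN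
  have hN0 : 0 < N := by
    rw [hN]
    exact_mod_cast Fintype.card_pos
  have h3 : ∀ i, 3 * b / a ^ t * (X i ^ t - (a / 2) ^ t) ≤ Z i := by
    intro i
    by_cases h : a / 2 ≤ X i
    · have h4 := hcon i h
      have h5 : 3 * b / a ^ t * (X i ^ t - (a / 2) ^ t) ≤ 3 * b / a ^ t * X i ^ t := by
        apply mul_le_mul_of_nonneg_left _ (by positivity)
        have : 0 ≤ (a / 2) ^ t := by positivity
        linarith
      linarith
    · have h4 : X i ^ t ≤ (a / 2) ^ t := pow_le_pow_left₀ (hX i) (not_le.1 h).le t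
      have h5 : 3 * b / a ^ t * (X i ^ t - (a / 2) ^ t) ≤ 0 :=
        mul_nonpos_of_nonneg_of_nonpos (by positivity) (by linarith)
      linarith [hZ i]
  have h4 : 3 * b / a ^ t * (∑ i, X i ^ t - N * (a / 2) ^ t) ≤ N * b := by
    calc 3 * b / a ^ t * (∑ i, X i ^ t - N * (a / 2) ^ t)
        = ∑ i, 3 * b / a ^ t * (X i ^ t - (a / 2) ^ t) := by
          rw [← Finset.mul_sum, Finset.sum_sub_distrib, Finset.sum_const, Finset.card_univ,
            nsmul_eq_mul]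
      _ ≤ ∑ i, Z i := Finset.sum_le_sum fun i _ => h3 i
      _ ≤ N * b := h2
  have h5 : N * a ^ t ≤ ∑ i, X i ^ t := by
    obtain ⟨k, rfl⟩ : ∃ k, t = k + 1 := ⟨t - 1, by omega⟩
    have h6 := pow_sum_div_card_le_sum_pow (s := (univ : Finset ι)) (f := X) (fun i _ => hX i) k
    rw [h1, Finset.card_univ, ← hN] at h6
    refine le_trans (le_of_eq ?_) h6
    field_simp
    ring
  have h6 : (a / 2) ^ t ≤ a ^ t / 2 := by
    rw [div_pow]
    apply div_le_div_of_nonneg_left (by positivity) (by norm_num)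
    calc (2 : ℝ) = 2 ^ 1 := by norm_num
      _ ≤ 2 ^ t := pow_le_pow_right₀ (by norm_num) ht
  have h7 : N * a ^ t / 2 ≤ ∑ i, X i ^ t - N * (a / 2) ^ t := by
    have : N * (a / 2) ^ t ≤ N * (a ^ t / 2) := mul_le_mul_of_nonneg_left h6 hN0.le
    linarith
  have h8 : 3 * b / a ^ t * (N * a ^ t / 2) ≤ N * b :=
    le_trans (mul_le_mul_of_nonneg_left h7 (by positivity)) h4
  have h9 : 3 * b / a ^ t * (N * a ^ t / 2) = 3 / 2 * (N * b) := by
    field_simp
  rw [h9] at h8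
  have : 0 < N * b := by positivity
  linarith

theorem emb3_card (n : ℕ) (hn : 6 ≤ n) : (n : ℝ) ^ 3 / 2 ≤ Fintype.card (Fin 3 ↪ Fin n) := by
  rw [Fintype.card_embedding_eq, Fintype.card_fin, Fintype.card_fin]
  obtain ⟨k, rfl⟩ : ∃ k, n = k + 6 := ⟨n - 6, by omega⟩
  have : (k + 6).descFactorial 3 = (k + 4) * ((k + 5) * (k + 6)) := by
    simp [Nat.descFactorial]
    
  rw [this]
  push_cast
  have hk : (0 : ℝ) ≤ k := Nat.cast_nonneg k
  nlinarith [mul_nonneg hk hk, mul_nonneg (mul_nonneg hk hk) hk]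

/-- dense graphs with few copies of `K_{3,t}`: all orders, all powers -/
theorem dense (t : ℕ) (ht : 1 ≤ t) : ∃ (r u : ℝ), 1 / 2 ≤ r ∧ 0 < u ∧ u < 1 ∧
    ∀ (n m : ℕ), 6 ≤ n → ∃ G : SimpleGraph (Fin n),
      (n : ℝ) ^ 3 * r ^ m / 4 ≤ L3 G ∧
      (LB t G : ℝ) < 3 * 2 ^ t * u ^ m * (n : ℝ) ^ 3 * ((L3 G : ℝ) / (n : ℝ) ^ 2) ^ t := by
  obtain ⟨X, hX, R, hR, r, s, hX8, hr, hs, hsr, hTT, hHH⟩ := exists_base t ht
  have hr0 : 0 < r := by linarith
  refine ⟨r, s / r ^ t, hr, by positivity, (div_lt_one (by positivity)).2 hsr, ?_⟩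
  intro n m hn
  classical
  let Y := Fin m → X
  set Q : Y → Y → Prop := tp R m with hQdef
  have hQ : ∀ x y, Q x y → Q y x := tp_symm R hR m
  have hXpos : (0 : ℝ) < Nat.card X := by linarith
  have hXne : Nonempty X := by
    have : 0 < Nat.card X := by exact_mod_cast hXpos
    exact (Nat.card_pos_iff.1 this).1
  have hYc : (Fintype.card Y : ℝ) = (Nat.card X : ℝ) ^ m := by
    show ((Fintype.card (Fin m → X) : ℕ) : ℝ) = _
    rw [Fintype.card_fun, Fintype.card_fin, Nat.card_eq_fintype_card]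
    push_cast
    rfl
  have hYpos : (0 : ℝ) < Fintype.card Y := by rw [hYc]; positivity
  have hN : (Fintype.card (Fin n → Y) : ℝ) = (Fintype.card Y : ℝ) ^ n := by
    rw [Fintype.card_fun, Fintype.card_fin]
    push_cast
    rfl
  have hnR : (6 : ℝ) ≤ n := by exact_mod_cast hn
  have hn0 : (0 : ℝ) < n := by linarith
  set a : ℝ := Fintype.card (Fin 3 ↪ Fin n) * r ^ m with ha
  have hemb := emb3_card n hn
  have ha0 : 0 < a := by
    rw [ha]
    have : (0 : ℝ) < Fintype.card (Fin 3 ↪ Fin n) := lt_of_lt_of_le (by positivity) hemb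
    positivity
  set b : ℝ := (n : ℝ) ^ (3 + t) * s ^ m with hb
  have hb0 : 0 < b := by rw [hb]; positivity
  have e1 : ∑ f : Fin n → Y, (L3 (pullG Q hQ f) : ℝ) = Fintype.card (Fin n → Y) * a := by
    have h1 := sum_pull (V := Fin n) (⊤ : SimpleGraph (Fin 3)) Q hQ
    rw [hm_tp, hm_tri R hR] at h1
    have h2 : (∑ f : Fin n → Y, (L3 (pullG Q hQ f) : ℝ)) * (Fintype.card Y : ℝ) ^ 3 =
        Fintype.card (Fin 3 ↪ Fin n) * ((Nat.card (TT R) : ℝ) ^ m * (Fintype.card Y : ℝ) ^ n) := by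
      have h3 := congrArg (Nat.cast : ℕ → ℝ) h1
      push_cast [Fintype.card_fin] at h3
      exact h3
    rw [hTT, mul_pow, ← pow_mul, mul_comm 3 m, pow_mul, ← hYc] at h2
    have h4 : (Fintype.card Y : ℝ) ^ 3 ≠ 0 := by positivity
    apply mul_right_cancel₀ h4
    rw [h2, hN, ha]
    ring
  have e2 : ∑ f : Fin n → Y, (LB t (pullG Q hQ f) : ℝ) ≤ Fintype.card (Fin n → Y) * b := by
    have h1 := sum_pull (V := Fin n) (completeBipartiteGraph (Fin 3) (Fin t)) Q hQ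
    rw [hm_tp, hm_bip R hR] at h1
    have hcard : Fintype.card (Fin 3 ⊕ Fin t) = 3 + t := by simp
    rw [hcard] at h1
    have h2 : (∑ f : Fin n → Y, (LB t (pullG Q hQ f) : ℝ)) * (Fintype.card Y : ℝ) ^ (3 + t) =
        Fintype.card (Fin 3 ⊕ Fin t ↪ Fin n) *
          ((Nat.card (HH R t) : ℝ) ^ m * (Fintype.card Y : ℝ) ^ n) := by
      have h3 := congrArg (Nat.cast : ℕ → ℝ) h1
      push_cast [Fintype.card_fin] at h3
      exact h3
    have h4 : (0 : ℝ) < (Fintype.card Y : ℝ) ^ (3 + t) := by positivity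
    have h5 : (Fintype.card (Fin 3 ⊕ Fin t ↪ Fin n) : ℝ) ≤ (n : ℝ) ^ (3 + t) := by
      rw [Fintype.card_embedding_eq, Fintype.card_fin, hcard]
      exact_mod_cast Nat.descFactorial_le_pow n (3 + t)
    have h6 : (Nat.card (HH R t) : ℝ) ^ m ≤ (Fintype.card Y : ℝ) ^ (3 + t) * s ^ m := by
      calc (Nat.card (HH R t) : ℝ) ^ m ≤ ((Nat.card X : ℝ) ^ (3 + t) * s) ^ m :=
            pow_le_pow_left₀ (Nat.cast_nonneg _) hHH m
        _ = (Fintype.card Y : ℝ) ^ (3 + t) * s ^ m := by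
            rw [mul_pow, hYc]
            ring
    apply le_of_mul_le_mul_right _ h4
    rw [h2, hN, hb]
    calc _ ≤ (n : ℝ) ^ (3 + t) * ((Fintype.card Y : ℝ) ^ (3 + t) * s ^ m * (Fintype.card Y : ℝ) ^ n) := by
          gcongr
      _ = _ := by ring
  have : Nonempty (Fin n → Y) := ⟨fun _ => fun _ => hXne.some⟩
  obtain ⟨f, hf1, hf2⟩ := pick (fun f : Fin n → Y => (L3 (pullG Q hQ f) : ℝ))
    (fun f => (LB t (pullG Q hQ f) : ℝ)) (fun _ => Nat.cast_nonneg _) (fun _ => Nat.cast_nonneg _)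
    t ht a b ha0 hb0 e1 e2
  refine ⟨pullG Q hQ f, ?_, ?_⟩
  · refine le_trans ?_ hf1
    rw [ha]
    have : (n : ℝ) ^ 3 / 2 * r ^ m ≤ Fintype.card (Fin 3 ↪ Fin n) * r ^ m := by gcongr
    linarith
  · refine lt_of_lt_of_le hf2 ?_
    have h1 : (n : ℝ) ^ 3 / 2 * r ^ m ≤ a := by rw [ha]; gcongr
    have h2 : 3 * b / a ^ t ≤ 3 * b / ((n : ℝ) ^ 3 / 2 * r ^ m) ^ t := by
      apply div_le_div_of_nonneg_left (by positivity) (by positivity)
      exact pow_le_pow_left₀ (by positivity) h1 t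
    calc _ ≤ 3 * b / ((n : ℝ) ^ 3 / 2 * r ^ m) ^ t * (L3 (pullG Q hQ f) : ℝ) ^ t := by
          gcongr
      _ = _ := by
          rw [hb]
          rw [div_pow, mul_pow, div_pow, div_pow, pow_add]
          have e3 : (r ^ m) ^ t = (r ^ t) ^ m := by rw [← pow_mul, ← pow_mul, mul_comm]
          have e4 : ((n : ℝ) ^ 3) ^ t = (n : ℝ) ^ t * ((n : ℝ) ^ 2) ^ t := by ring
          rw [e3, e4]
          field_simp

end Pool.Agent.KS6_59.TS
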