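import Pool.Agent.KS6_59.TS.Dense

/-!
Lower bound for the number of copies of `K_{3,t}` in dense graphs.
-/

set_option autoImplicit false
set_option maxHeartbeats 400000
open Finset SimpleGraph

namespace Pool.Agent.KS6_59.TS

open Pool.Agent.Q265.KT

section
variable {V : Type} [Fintype V] [DecidableEq V] (G : SimpleGraph V) [DecidableRel G.Adj]

/-- adjacency indicator -/
def ad (u v : V) : ℝ := if G.Adj u v then 1 else 0

omit [Fintype V] [DecidableEq V] in
theorem ad_nonneg (u v : V) : 0 ≤ ad G u v := by unfold ad; split_ifs <;> norm_num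
omit [Fintype V] [DecidableEq V] in
theorem ad_le (u v : V) : ad G u v ≤ 1 := by unfold ad; split_ifs <;> norm_num
omit [Fintype V] [DecidableEq V] in
theorem ad_sq (u v : V) : ad G u v ^ 2 = ad G u v := by unfold ad; split_ifs <;> norm_num
omit [Fintype V] [DecidableEq V] in
theorem ad_symm (u v : V) : ad G u v = ad G v u := by
  unfold ad
  simp only [G.adj_comm]

/-- degree -/
noncomputable def dg (v : V) : ℝ := ∑ u, ad G u v

omit [DecidableEq V] in
theorem L3_eq : (L3 G : ℝ) = ∑ p : V × V, ad G p.1 p.2 * ∑ w, ad G w p.1 * ad G w p.2 := by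
  classical
  have h1 : L3 G = Nat.card (TT G.Adj) := by
    rw [← hm_tri G.Adj (fun _ _ h => h.symm)]
    unfold L3
    exact Nat.card_congr
      { toFun := fun φ => ⟨φ.1, φ.2⟩
        invFun := fun g => ⟨⟨g.1, fun a b h => by
          by_contra hne
          exact (g.2 a b hne).ne h⟩, g.2⟩
        left_inv := fun φ => rfl
        right_inv := fun φ => rfl }
  rw [h1, card_TT]
  push_cast
  rw [Fintype.sum_prod_type]
  refine sum_congr rfl fun x _ => sum_congr rfl fun y _ => ?_
  rw [Finset.mul_sum]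
  refine sum_congr rfl fun z _ => ?_
  unfold ad
  by_cases h1 : G.Adj x y <;> by_cases h2 : G.Adj y z <;> by_cases h3 : G.Adj x z <;>
    simp [h1, h2, h3, G.adj_comm z]

omit [DecidableEq V] in
theorem L3_sq_le : (L3 G : ℝ) ^ 2 ≤ (∑ v, dg G v) ^ 3 := by
  classical
  have h1 := Finset.sum_mul_sq_le_sq_mul_sq (univ : Finset (V × V)) (fun p => ad G p.1 p.2)
    (fun p => ∑ w, ad G w p.1 * ad G w p.2)
  rw [← L3_eq] at h1
  have h2 : ∑ p : V × V, ad G p.1 p.2 ^ 2 = ∑ v, dg G v := by
    simp_rw [ad_sq]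
    rw [Fintype.sum_prod_type, Finset.sum_comm]
    rfl
  have h3 : ∑ p : V × V, (∑ w, ad G w p.1 * ad G w p.2) ^ 2 ≤ (∑ v, dg G v) ^ 2 := by
    rw [sq (∑ v, dg G v), Finset.sum_mul_sum, ← Finset.sum_product', Finset.univ_product_univ]
    refine Finset.sum_le_sum fun p _ => ?_
    have h4 : ∑ w, ad G w p.1 * ad G w p.2 ≤ dg G p.1 := by
      unfold dg
      refine Finset.sum_le_sum fun w _ => ?_
      exact mul_le_of_le_one_right (ad_nonneg G _ _) (ad_le G _ _)
    have h5 : ∑ w, ad G w p.1 * ad G w p.2 ≤ dg G p.2 := by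
      unfold dg
      refine Finset.sum_le_sum fun w _ => ?_
      exact mul_le_of_le_one_left (ad_nonneg G _ _) (ad_le G _ _)
    have h6 : 0 ≤ ∑ w, ad G w p.1 * ad G w p.2 :=
      Finset.sum_nonneg fun w _ => mul_nonneg (ad_nonneg G _ _) (ad_nonneg G _ _)
    rw [sq]
    exact mul_le_mul h4 h5 h6 (h6.trans h4)
  have h7 : 0 ≤ ∑ v, dg G v := Finset.sum_nonneg fun v _ => Finset.sum_nonneg fun u _ => ad_nonneg G _ _
  calc (L3 G : ℝ) ^ 2 ≤ _ := h1
    _ = (∑ v, dg G v) * ∑ p : V × V, (∑ w, ad G w p.1 * ad G w p.2) ^ 2 := by rw [h2]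
    _ ≤ (∑ v, dg G v) * (∑ v, dg G v) ^ 2 := mul_le_mul_of_nonneg_left h3 h7
    _ = _ := by ring

omit [DecidableEq V] in
theorem HH_ge (t : ℕ) (ht : 1 ≤ t) : (L3 G : ℝ) ^ (2 * t) * (Fintype.card V : ℝ) ^ 3 ≤
    (Nat.card (HH G.Adj t) : ℝ) * (Fintype.card V : ℝ) ^ (5 * t) := by
  classical
  set n : ℝ := (Fintype.card V : ℝ) with hn
  have hn0 : 0 ≤ n := Nat.cast_nonneg _
  rcases hn0.eq_or_lt with h0 | hpos
  · rw [← h0, zero_pow (by norm_num : (3 : ℕ) ≠ 0), zero_pow (by omega)]
    simp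
  set M := ∑ v, dg G v with hM
  have hM0 : 0 ≤ M := Finset.sum_nonneg fun v _ => Finset.sum_nonneg fun u _ => ad_nonneg G _ _
  have hcd : (Nat.card (HH G.Adj t) : ℝ) =
      ∑ p : V × V × V, (∑ b, ad G p.1 b * ad G p.2.1 b * ad G p.2.2 b) ^ t := by
    rw [card_HH]
    push_cast
    rw [Fintype.sum_prod_type]
    refine sum_congr rfl fun x _ => ?_
    rw [Fintype.sum_prod_type]
    refine sum_congr rfl fun y _ => sum_congr rfl fun z _ => ?_
    congr 1
    rw [Finset.card_filter]
    push_cast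
    refine sum_congr rfl fun b _ => ?_
    unfold ad
    split_ifs <;> simp_all
  have hsum : ∑ p : V × V × V, (∑ b, ad G p.1 b * ad G p.2.1 b * ad G p.2.2 b) =
      ∑ v, dg G v ^ 3 := by
    rw [Finset.sum_comm]
    refine sum_congr rfl fun v _ => ?_
    rw [Fintype.sum_prod_type]
    simp_rw [Fintype.sum_prod_type]
    unfold dg
    simp only [mul_assoc, ← Finset.mul_sum, ← Finset.sum_mul]
    ring
  have h3 : M ^ 3 ≤ (∑ v, dg G v ^ 3) * n ^ 2 := by
    have := pow_sum_div_card_le_sum_pow (s := (univ : Finset V)) (f := dg G)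
      (fun v _ => Finset.sum_nonneg fun u _ => ad_nonneg G _ _) 2
    rw [Finset.card_univ, ← hn, div_le_iff₀ (by positivity)] at this
    exact this
  have h4 : (∑ v, dg G v ^ 3) ^ t * n ^ 3 ≤ (Nat.card (HH G.Adj t) : ℝ) * n ^ (3 * t) := by
    obtain ⟨k, rfl⟩ : ∃ k, t = k + 1 := ⟨t - 1, by omega⟩
    have := pow_sum_div_card_le_sum_pow (s := (univ : Finset (V × V × V)))
      (f := fun p => ∑ b, ad G p.1 b * ad G p.2.1 b * ad G p.2.2 b)
      (fun p _ => Finset.sum_nonneg fun b _ =>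
        mul_nonneg (mul_nonneg (ad_nonneg G _ _) (ad_nonneg G _ _)) (ad_nonneg G _ _)) k
    rw [hsum, ← hcd, Finset.card_univ, Fintype.card_prod, Fintype.card_prod] at this
    push_cast at this
    rw [← hn, div_le_iff₀ (by positivity)] at this
    calc _ ≤ (Nat.card (HH G.Adj (k + 1)) : ℝ) * (n * (n * n)) ^ k * n ^ 3 :=
          mul_le_mul_of_nonneg_right this (by positivity)
      _ = _ := by ring
  have h5 : (L3 G : ℝ) ^ (2 * t) ≤ (∑ v, dg G v ^ 3) ^ t * n ^ (2 * t) := by
    calc (L3 G : ℝ) ^ (2 * t) = ((L3 G : ℝ) ^ 2) ^ t := by rw [pow_mul]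
      _ ≤ (M ^ 3) ^ t := pow_le_pow_left₀ (by positivity) (L3_sq_le G) t
      _ ≤ ((∑ v, dg G v ^ 3) * n ^ 2) ^ t := pow_le_pow_left₀ (by positivity) h3 t
      _ = _ := by rw [mul_pow, pow_mul]
  calc (L3 G : ℝ) ^ (2 * t) * n ^ 3 ≤ (∑ v, dg G v ^ 3) ^ t * n ^ (2 * t) * n ^ 3 :=
        mul_le_mul_of_nonneg_right h5 (by positivity)
    _ = ((∑ v, dg G v ^ 3) ^ t * n ^ 3) * n ^ (2 * t) := by ring
    _ ≤ ((Nat.card (HH G.Adj t) : ℝ) * n ^ (3 * t)) * n ^ (2 * t) :=
        mul_le_mul_of_nonneg_right h4 (by positivity)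
    _ = _ := by rw [mul_assoc, ← pow_add]; congr 2; ring

omit [DecidableRel G.Adj] in
theorem HH_le (t : ℕ) : Nat.card (HH G.Adj t) ≤
    LB t G + (3 + t) ^ 2 * Fintype.card V ^ (2 + t) := by
  classical
  have hF : Fintype (HH G.Adj t) := Fintype.ofFinite _
  let W := Fin 3 ⊕ Fin t
  have h1 : ∀ g : {g : HH G.Adj t // ¬ Function.Injective g.1},
      ∃ p : W × W, p.1 ≠ p.2 ∧ g.1.1 p.1 = g.1.1 p.2 := by
    rintro ⟨g, hg⟩
    simp only [Function.Injective, not_forall] at hg
    obtain ⟨a, b, h, hab⟩ := hg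
    exact ⟨(a, b), hab, h⟩
  choose p hp1 hp2 using h1
  have e1 : Nat.card (HH G.Adj t) = Nat.card {g : HH G.Adj t // Function.Injective g.1} +
      Nat.card {g : HH G.Adj t // ¬ Function.Injective g.1} := by
    rw [← Nat.card_sum]
    exact Nat.card_congr (Equiv.sumCompl _).symm
  rw [e1]
  apply Nat.add_le_add
  · unfold LB
    refine Nat.card_le_card_of_injective (fun g => ⟨⟨g.1.1, g.2⟩, ?_⟩) ?_
    · intro a b hab
      rcases a with i | i <;> rcases b with j | j
      · simp [completeBipartiteGraph] at hab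
      · exact g.1.2 i j
      · exact (g.1.2 j i).symm
      · simp [completeBipartiteGraph] at hab
    · intro g g' h
      apply Subtype.ext
      apply Subtype.ext
      have := congrArg (fun x => (x.1 : W → V)) h
      exact this
  · have h2 : Nat.card {g : HH G.Adj t // ¬ Function.Injective g.1} ≤
        Nat.card (Σ q : W × W, {g : W → V // q.1 ≠ q.2 ∧ g q.1 = g q.2}) := by
      refine Nat.card_le_card_of_injective (fun g => ⟨p g, g.1.1, hp1 g, hp2 g⟩) ?_
      intro g g' h
      apply Subtype.ext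
      apply Subtype.ext
      have := congrArg (fun x => (x.2.1 : W → V)) h
      exact this
    refine h2.trans ?_
    rw [Nat.card_eq_fintype_card, Fintype.card_sigma]
    have h3 : ∀ q : W × W, Fintype.card {g : W → V // q.1 ≠ q.2 ∧ g q.1 = g q.2} ≤
        Fintype.card V ^ (2 + t) := by
      intro q
      have h4 : Fintype.card ({w : W // w ≠ q.2} → V) ≤ Fintype.card V ^ (2 + t) := by
        rw [Fintype.card_fun]
        apply le_of_eq
        congr 1
        rw [Fintype.card_subtype, Finset.filter_ne', Finset.card_erase_of_mem (Finset.mem_univ _),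
          Finset.card_univ]
        have : Fintype.card W = 3 + t := by simp [W]
        rw [this]
        omega
      refine le_trans ?_ h4
      refine Fintype.card_le_of_injective (fun g w => g.1 w.1) ?_
      rintro ⟨g, hg⟩ ⟨g', hg'⟩ h
      apply Subtype.ext
      funext w
      by_cases hw : w = q.2
      · have h5 := congrFun h ⟨q.1, hg.1⟩
        have h6 : g q.1 = g' q.1 := h5
        show g w = g' w
        rw [hw, ← hg.2, ← hg'.2, h6]
      · exact congrFun h ⟨w, hw⟩
    refine (Finset.sum_le_sum fun q _ => h3 q).trans ?_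
    rw [Finset.sum_const, Finset.card_univ, smul_eq_mul, Fintype.card_prod]
    apply le_of_eq
    simp [W, sq]

end

end Pool.Agent.KS6_59.TS
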