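import Pool.Agent.KS6_59.TS.Sparse
import Pool.Agent.KS6_59.TS.Low

/-!
Assembly of the estimates.
-/

set_option autoImplicit false
set_option maxHeartbeats 400000
open Finset SimpleGraph Filter Topology

namespace Pool.Agent.KS6_59.TS

/-- the number of triangles -/
noncomputable def N3 {V : Type} [Fintype V] (G : SimpleGraph V) : ℕ :=
  G.copyCount (⊤ : SimpleGraph (Fin 3))

/-- the number of copies of `K_{3,t}` -/
noncomputable def NB {V : Type} [Fintype V] (t : ℕ) (G : SimpleGraph V) : ℕ :=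
  G.copyCount (completeBipartiteGraph (Fin 3) (Fin t))

theorem N3_le {V : Type} [Fintype V] (G : SimpleGraph V) : N3 G ≤ L3 G := copy_le_emb G _

theorem L3_le {V : Type} [Fintype V] (G : SimpleGraph V) : L3 G ≤ 6 * N3 G := by
  have := emb_le_copy G (⊤ : SimpleGraph (Fin 3))
  rw [Fintype.card_fin] at this
  exact this

theorem NB_le {V : Type} [Fintype V] (t : ℕ) (G : SimpleGraph V) : NB t G ≤ LB t G :=
  copy_le_emb G _

theorem LB_le {V : Type} [Fintype V] (t : ℕ) (G : SimpleGraph V) :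
    LB t G ≤ (3 + t).factorial * NB t G := by
  have := emb_le_copy G (completeBipartiteGraph (Fin 3) (Fin t))
  rw [Fintype.card_sum, Fintype.card_fin, Fintype.card_fin] at this
  exact this

theorem ev_rpow (e C : ℝ) (he : 0 < e) : ∀ᶠ n : ℕ in atTop, C ≤ (n : ℝ) ^ e :=
  ((tendsto_rpow_atTop he).comp tendsto_natCast_atTop_atTop).eventually_ge_atTop C

/-- few copies of `K_{3,t}` at every density -/
theorem alldens (t : ℕ) (ht : 1 ≤ t) (η : ℝ) (hη : 0 < η) : ∃ δ : ℝ, 0 < δ ∧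
    ∀ᶠ n : ℕ in atTop, ∀ K : ℝ, 1 ≤ K → K ≤ (n : ℝ) ^ (1 - η) →
      ∃ G : SimpleGraph (Fin n), K * (n : ℝ) ^ 2 ≤ N3 G ∧ (N3 G : ℝ) ≤ 144 * K * (n : ℝ) ^ 2 ∧
        (NB t G : ℝ) ≤ K ^ t * (n : ℝ) ^ (3 - δ) := by
  obtain ⟨r, u, hr, hu0, hu1, hdense⟩ := dense t ht
  set lam : ℝ := - Real.log u with hlam
  have hlam0 : 0 < lam := by
    rw [hlam]
    have := Real.log_neg hu0 hu1
    linarith
  set ρ : ℝ := η / 2 with hρ
  have hρ0 : 0 < ρ := by positivity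
  set δ : ℝ := lam * ρ / 2 with hδ
  have hδ0 : 0 < δ := by positivity
  set C : ℝ := 12 * 192 ^ t / u with hC
  have hC0 : 0 < C := by positivity
  refine ⟨δ, hδ0, ?_⟩
  filter_upwards [ev_rpow (η / 2) 48 (by positivity), ev_rpow δ C hδ0, eventually_ge_atTop 12]
    with n h48 hCn hn12 K hK1 hKn
  have hnR : (12 : ℝ) ≤ n := by exact_mod_cast hn12
  have hn0 : (0 : ℝ) < n := by linarith
  have hK0 : 0 < K := by linarith
  have hlog : 0 ≤ Real.log n := Real.log_nonneg (by linarith)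
  set m : ℕ := ⌊ρ * Real.log n⌋₊ with hm
  have hm1 : (m : ℝ) ≤ ρ * Real.log n := Nat.floor_le (by positivity)
  have hm2 : ρ * Real.log n < m + 1 := Nat.lt_floor_add_one _
  obtain ⟨G0, hG1, hG2⟩ := hdense n m (by omega)
  -- bounds for the powers
  have hrm : (n : ℝ) ^ (-ρ) ≤ r ^ m := by
    have h1 : (Real.exp (-1)) ≤ r := by
      have h2 : Real.exp (-1) ≤ 1 / 2 := by
        rw [Real.exp_neg, one_div]
        apply inv_anti₀ (by norm_num)
        have := Real.add_one_le_exp (1 : ℝ)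
        linarith
      linarith
    calc (n : ℝ) ^ (-ρ) = Real.exp (Real.log n * (-ρ)) := by rw [Real.rpow_def_of_pos hn0]
      _ ≤ Real.exp (m * (-1)) := by
          apply Real.exp_le_exp.2
          linarith
      _ = (Real.exp (-1)) ^ m := by rw [Real.exp_nat_mul]
      _ ≤ r ^ m := pow_le_pow_left₀ (Real.exp_pos _).le h1 m
  have hum : u ^ m ≤ u⁻¹ * (n : ℝ) ^ (-(2 * δ)) := by
    have h1 : u ^ m = Real.exp (-lam * m) := by
      rw [hlam, neg_neg, mul_comm, Real.exp_nat_mul, Real.exp_log hu0]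
    have h2 : u⁻¹ = Real.exp lam := by
      rw [hlam, Real.exp_neg, Real.exp_log hu0]
    rw [h1, h2, Real.rpow_def_of_pos hn0, ← Real.exp_add]
    apply Real.exp_le_exp.2
    rw [hδ]
    nlinarith
  set κ0 : ℝ := (L3 G0 : ℝ) / (n : ℝ) ^ 2 with hκ0
  have hκ1 : (n : ℝ) ^ (1 - η / 2) / 4 ≤ κ0 := by
    rw [hκ0, le_div_iff₀ (by positivity)]
    refine le_trans ?_ hG1
    have h1 : (n : ℝ) ^ (1 - η / 2) = n * (n : ℝ) ^ (-ρ) := by
      rw [hρ, sub_eq_add_neg, Real.rpow_add hn0, Real.rpow_one]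
    rw [h1]
    calc n * (n : ℝ) ^ (-ρ) / 4 * (n : ℝ) ^ 2 = (n : ℝ) ^ 3 * (n : ℝ) ^ (-ρ) / 4 := by ring
      _ ≤ (n : ℝ) ^ 3 * r ^ m / 4 := by gcongr
  have hκpos : 0 < κ0 := lt_of_lt_of_le (by positivity) hκ1
  -- the number of colours
  set y : ℝ := (κ0 / (12 * K)) ^ ((1 : ℝ) / 3) with hy
  have hy3 : y ^ 3 = κ0 / (12 * K) := by
    rw [hy, ← Real.rpow_natCast, ← Real.rpow_mul (by positivity)]
    norm_num
  have hy1 : 1 ≤ y := by
    rw [hy]
    apply Real.one_le_rpow _ (by norm_num)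
    rw [one_le_div (by positivity)]
    have h1 : (n : ℝ) ^ (1 - η / 2) = (n : ℝ) ^ (η / 2) * (n : ℝ) ^ (1 - η) := by
      rw [← Real.rpow_add hn0]
      congr 1
      ring
    rw [h1] at hκ1
    have h2 : 48 * K ≤ (n : ℝ) ^ (η / 2) * (n : ℝ) ^ (1 - η) :=
      mul_le_mul h48 hKn hK0.le (by positivity)
    linarith
  set q : ℕ := ⌊y⌋₊ with hq
  have hq1 : 1 ≤ q := Nat.le_floor (by simpa using hy1)
  have hq2 : (q : ℝ) ≤ y := Nat.floor_le (by linarith)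
  have hq3 : y < q + 1 := Nat.lt_floor_add_one _
  obtain ⟨k, hk⟩ : ∃ k, q = k + 1 := ⟨q - 1, by omega⟩
  have hkq : (k : ℝ) + 1 = q := by rw [hk]; push_cast; ring
  have hq0 : (0 : ℝ) < q := by exact_mod_cast hq1
  have hq1R : (1 : ℝ) ≤ q := by exact_mod_cast hq1
  have hb1 : 12 * K ≤ κ0 / (q : ℝ) ^ 3 := by
    rw [le_div_iff₀ (by positivity)]
    have h1 : (q : ℝ) ^ 3 ≤ y ^ 3 := pow_le_pow_left₀ hq0.le hq2 3
    rw [hy3, le_div_iff₀ (by positivity)] at h1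
    linarith
  have hb2 : κ0 / (q : ℝ) ^ 3 ≤ 96 * K := by
    rw [div_le_iff₀ (by positivity)]
    have h1 : y ^ 3 ≤ (2 * q) ^ 3 := pow_le_pow_left₀ (by linarith) (by linarith) 3
    rw [hy3, div_le_iff₀ (by positivity)] at h1
    nlinarith
  set a : ℝ := (L3 G0 : ℝ) / (q : ℝ) ^ 3 with ha
  have haκ : a = κ0 / (q : ℝ) ^ 3 * (n : ℝ) ^ 2 := by
    rw [ha, hκ0]
    field_simp
  have ha1 : 12 * K * (n : ℝ) ^ 2 ≤ a := by
    rw [haκ]
    exact mul_le_mul_of_nonneg_right hb1 (by positivity)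
  have ha2 : a ≤ 96 * K * (n : ℝ) ^ 2 := by
    rw [haκ]
    exact mul_le_mul_of_nonneg_right hb2 (by positivity)
  have ha3 : (0 : ℝ) < 12 * K * (n : ℝ) ^ 2 := by positivity
  set B : ℝ := 3 * 2 ^ t * u ^ m * (n : ℝ) ^ 3 * (κ0 / (q : ℝ) ^ 3) ^ t with hB
  have hB0 : 0 < B := by
    have : 0 < κ0 / (q : ℝ) ^ 3 := by positivity
    positivity
  obtain ⟨G, h1, h2, h3⟩ := sparse G0 k t B a hB0 (by
      rw [hkq, hB, div_pow, ← pow_mul]
      refine hG2.le.trans (le_of_eq ?_)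
      field_simp) (by
      rw [hkq, ha]
      field_simp) (by
      rw [Fintype.card_fin]
      refine le_trans ?_ ha1
      nlinarith [mul_le_mul_of_nonneg_right hK1 (sq_nonneg (n : ℝ))]) (by linarith)
  refine ⟨G, ?_, ?_, ?_⟩
  · have h4 : (L3 G : ℝ) ≤ 6 * N3 G := by exact_mod_cast L3_le G
    linarith
  · have h4 : (N3 G : ℝ) ≤ L3 G := by exact_mod_cast N3_le G
    linarith
  · have h4 : (NB t G : ℝ) ≤ LB t G := by exact_mod_cast NB_le t G
    refine h4.trans (h3.trans ?_)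
    have h5 : (κ0 / (q : ℝ) ^ 3) ^ t ≤ (96 * K) ^ t := pow_le_pow_left₀ (by positivity) hb2 t
    have h6 : 4 * B ≤ (12 * 192 ^ t / u) * (n : ℝ) ^ (-(2 * δ)) * (n : ℝ) ^ 3 * K ^ t := by
      calc 4 * B ≤ 4 * (3 * 2 ^ t * (u⁻¹ * (n : ℝ) ^ (-(2 * δ))) * (n : ℝ) ^ 3 * (96 * K) ^ t) := by
            rw [hB]
            gcongr
        _ = _ := by
            have : (192 : ℝ) ^ t = 2 ^ t * 96 ^ t := by rw [← mul_pow]; norm_num
            rw [this, mul_pow]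
            field_simp
            ring
    refine h6.trans ?_
    rw [← hC]
    have h7 : (n : ℝ) ^ (3 - δ) = (n : ℝ) ^ δ * (n : ℝ) ^ (-(2 * δ)) * (n : ℝ) ^ 3 := by
      rw [← Real.rpow_natCast, ← Real.rpow_add hn0, ← Real.rpow_add hn0]
      congr 1
      push_cast
      ring
    rw [h7, mul_comm (K ^ t)]
    gcongr

/-- many copies of `K_{3,t}` in dense graphs -/
theorem lower (t : ℕ) (ht : 1 ≤ t) : ∃ c C : ℝ, 0 < c ∧ 0 < C ∧ ∀ (n : ℕ) (G : SimpleGraph (Fin n))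
    (k : ℝ), (N3 G : ℝ) = k * (n : ℝ) ^ 2 → C * (n : ℝ) ^ (1 - 1 / (2 * t : ℝ)) ≤ k →
      c * (k / n) ^ t * (k ^ t * (n : ℝ) ^ 3) ≤ NB t G := by
  refine ⟨1 / (2 * (3 + t).factorial), 2 * (3 + t) ^ 2, by positivity, by positivity, ?_⟩
  intro n G k hk hkn
  classical
  rcases Nat.eq_zero_or_pos n with h0 | hn
  · subst h0
    simp only [Nat.cast_zero, div_zero, zero_pow (by omega : t ≠ 0)]
    simp
  have hn0 : (0 : ℝ) < n := by exact_mod_cast hn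
  have ht0 : (0 : ℝ) < t := by exact_mod_cast ht
  have hk0 : 0 < k := lt_of_lt_of_le (by positivity) hkn
  have h1 : (L3 G : ℝ) ^ (2 * t) * (n : ℝ) ^ 3 ≤
      (LB t G + (3 + t) ^ 2 * (n : ℝ) ^ (2 + t)) * (n : ℝ) ^ (5 * t) := by
    have h2 := HH_ge G t ht
    rw [Fintype.card_fin] at h2
    have h3 : (Nat.card (Pool.Agent.Q265.KT.HH G.Adj t) : ℝ) ≤
        LB t G + (3 + t) ^ 2 * (n : ℝ) ^ (2 + t) := by
      have := HH_le G t
      rw [Fintype.card_fin] at this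
      exact_mod_cast this
    exact h2.trans (mul_le_mul_of_nonneg_right h3 (by positivity))
  have h2 : (k * (n : ℝ) ^ 2) ^ (2 * t) ≤ (L3 G : ℝ) ^ (2 * t) := by
    apply pow_le_pow_left₀ (by positivity)
    rw [← hk]
    exact_mod_cast N3_le G
  have h3 : k ^ (2 * t) * (n : ℝ) ^ 3 ≤ (LB t G + (3 + t) ^ 2 * (n : ℝ) ^ (2 + t)) * (n : ℝ) ^ t := by
    have h4 : (k * (n : ℝ) ^ 2) ^ (2 * t) * (n : ℝ) ^ 3 ≤
        (LB t G + (3 + t) ^ 2 * (n : ℝ) ^ (2 + t)) * (n : ℝ) ^ (5 * t) :=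
      (mul_le_mul_of_nonneg_right h2 (by positivity)).trans h1
    have h5 : (0 : ℝ) < (n : ℝ) ^ (4 * t) := by positivity
    apply le_of_mul_le_mul_right _ h5
    calc _ = (k * (n : ℝ) ^ 2) ^ (2 * t) * (n : ℝ) ^ 3 := by
          rw [mul_pow, ← pow_mul]
          have : 2 * (2 * t) = 4 * t := by ring
          rw [this]
          ring
      _ ≤ _ := h4
      _ = _ := by
          rw [mul_assoc, ← pow_add]
          congr 2
          ring
  have h4 : 2 * (3 + t : ℝ) ^ 2 * (n : ℝ) ^ (2 * t) ≤ k ^ (2 * t) * n := by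
    have h5 : (2 * (3 + t : ℝ) ^ 2 * (n : ℝ) ^ (1 - 1 / (2 * t : ℝ))) ^ (2 * t) ≤ k ^ (2 * t) :=
      pow_le_pow_left₀ (by positivity) hkn _
    have h6 : ((n : ℝ) ^ (1 - 1 / (2 * t : ℝ))) ^ (2 * t) * n = (n : ℝ) ^ (2 * t) := by
      rw [← Real.rpow_natCast, ← Real.rpow_mul hn0.le]
      nth_rewrite 2 [← Real.rpow_one (n : ℝ)]
      rw [← Real.rpow_add hn0, ← Real.rpow_natCast]
      congr 1
      push_cast
      field_simp
      ring
    have h7 : (2 * (3 + t : ℝ) ^ 2) ≤ (2 * (3 + t : ℝ) ^ 2) ^ (2 * t) := by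
      apply le_self_pow₀ _ (by omega)
      nlinarith
    calc 2 * (3 + t : ℝ) ^ 2 * (n : ℝ) ^ (2 * t) ≤ (2 * (3 + t : ℝ) ^ 2) ^ (2 * t) * (n : ℝ) ^ (2 * t) :=
          mul_le_mul_of_nonneg_right h7 (by positivity)
      _ = (2 * (3 + t : ℝ) ^ 2 * (n : ℝ) ^ (1 - 1 / (2 * t : ℝ))) ^ (2 * t) * n := by
          rw [mul_pow (2 * (3 + t : ℝ) ^ 2), mul_assoc, h6]
      _ ≤ _ := mul_le_mul_of_nonneg_right h5 hn0.le
  have h5 : k ^ (2 * t) * (n : ℝ) ^ 3 ≤ 2 * (LB t G * (n : ℝ) ^ t) := by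
    have h6 : (3 + t : ℝ) ^ 2 * (n : ℝ) ^ (2 + t) * (n : ℝ) ^ t ≤ k ^ (2 * t) * (n : ℝ) ^ 3 / 2 := by
      calc _ = (2 * (3 + t : ℝ) ^ 2 * (n : ℝ) ^ (2 * t)) * (n : ℝ) ^ 2 / 2 := by
            rw [two_mul t, pow_add, pow_add]
            ring
        _ ≤ (k ^ (2 * t) * n) * (n : ℝ) ^ 2 / 2 := by gcongr
        _ = _ := by ring
    nlinarith
  have h6 : (LB t G : ℝ) ≤ (3 + t).factorial * NB t G := by exact_mod_cast LB_le t G
  have h7 : (0 : ℝ) < (3 + t).factorial := by exact_mod_cast Nat.factorial_pos _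
  calc _ = (k ^ (2 * t) * (n : ℝ) ^ 3) / ((n : ℝ) ^ t * (2 * (3 + t).factorial)) := by
        rw [div_pow, two_mul t, pow_add]
        field_simp
    _ ≤ (2 * (LB t G * (n : ℝ) ^ t)) / ((n : ℝ) ^ t * (2 * (3 + t).factorial)) := by gcongr
    _ = (LB t G : ℝ) / (3 + t).factorial := by field_simp
    _ ≤ NB t G := by
        rw [div_le_iff₀ h7]
        linarith

end Pool.Agent.KS6_59.TS
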