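import Pool.Agent.KS6_59.TS.Dense

/-!
Random sparsification.
-/

set_option autoImplicit false
set_option maxHeartbeats 400000
open Finset SimpleGraph

namespace Pool.Agent.KS6_59.TS

open Pool.Agent.Q265.KT

/-- the edges of colour zero -/
def spG {V : Type} (G : SimpleGraph V) {k : ℕ} (c : Sym2 V → Fin (k + 1)) : SimpleGraph V where
  Adj u v := G.Adj u v ∧ c s(u, v) = 0
  symm := ⟨fun _ _ h => ⟨h.1.symm, by rw [Sym2.eq_swap]; exact h.2⟩⟩
  loopless := ⟨fun _ h => G.loopless.1 _ h.1⟩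

theorem zero_count {S E : Type} [Fintype S] [Fintype E] (k : ℕ) (j : S ↪ E) :
    Nat.card {c : E → Fin (k + 1) // ∀ s, c (j s) = 0} * (k + 1) ^ Fintype.card S =
      (k + 1) ^ Fintype.card E := by
  have h := card_restr (Y := Fin (k + 1)) j (fun g => ∀ s, g s = 0)
  rw [Fintype.card_fin] at h
  rw [h]
  have : Nat.card {g : S → Fin (k + 1) // ∀ s, g s = 0} = 1 := by
    rw [Nat.card_eq_one_iff_unique]
    refine ⟨⟨fun a b => Subtype.ext (funext fun s => ?_)⟩, ⟨⟨fun _ => 0, fun _ => rfl⟩⟩⟩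
    rw [a.2 s, b.2 s]
  rw [this, one_mul]

/-- the edges of a triangle -/
def ed3 {V : Type} (φ : Fin 3 ↪ V) : Fin 3 ↪ Sym2 V where
  toFun i := s(φ i, φ (i + 1))
  inj' := by
    intro i j h
    simp only [Sym2.eq_iff, EmbeddingLike.apply_eq_iff_eq] at h
    revert i j
    decide

/-- the edges of a `K_{3,t}` -/
def edB {V : Type} (t : ℕ) (φ : Fin 3 ⊕ Fin t ↪ V) : Fin 3 × Fin t ↪ Sym2 V where
  toFun p := s(φ (Sum.inl p.1), φ (Sum.inr p.2))
  inj' := by
    rintro ⟨i, j⟩ ⟨i', j'⟩ h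
    simp only [Sym2.eq_iff, EmbeddingLike.apply_eq_iff_eq, Sum.inl.injEq, Sum.inr.injEq,
      reduceCtorEq, false_and, or_false] at h
    exact Prod.ext h.1 h.2

theorem tri_iff {V : Type} (G : SimpleGraph V) {k : ℕ} (c : Sym2 V → Fin (k + 1)) (φ : Fin 3 ↪ V) :
    (∀ a b, (⊤ : SimpleGraph (Fin 3)).Adj a b → (spG G c).Adj (φ a) (φ b)) ↔
      (∀ a b, (⊤ : SimpleGraph (Fin 3)).Adj a b → G.Adj (φ a) (φ b)) ∧ ∀ i, c (ed3 φ i) = 0 := by
  constructor
  · intro h
    refine ⟨fun a b hab => (h a b hab).1, fun i => ?_⟩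
    exact (h i (i + 1) (by revert i; decide)).2
  · rintro ⟨h1, h2⟩ a b hab
    refine ⟨h1 a b hab, ?_⟩
    have h3 : ∀ a b : Fin 3, a ≠ b → b = a + 1 ∨ a = b + 1 := by decide
    rcases h3 a b hab with h | h
    · rw [h]
      exact h2 a
    · rw [Sym2.eq_swap, h]
      exact h2 b

theorem bip_iff {V : Type} (G : SimpleGraph V) {k t : ℕ} (c : Sym2 V → Fin (k + 1))
    (φ : Fin 3 ⊕ Fin t ↪ V) :
    (∀ a b, (completeBipartiteGraph (Fin 3) (Fin t)).Adj a b → (spG G c).Adj (φ a) (φ b)) ↔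
      (∀ a b, (completeBipartiteGraph (Fin 3) (Fin t)).Adj a b → G.Adj (φ a) (φ b)) ∧
        ∀ i, c (edB t φ i) = 0 := by
  constructor
  · intro h
    refine ⟨fun a b hab => (h a b hab).1, fun i => ?_⟩
    exact (h (Sum.inl i.1) (Sum.inr i.2) (by simp [completeBipartiteGraph])).2
  · rintro ⟨h1, h2⟩ a b hab
    refine ⟨h1 a b hab, ?_⟩
    rcases a with i | i <;> rcases b with j | j
    · simp [completeBipartiteGraph] at hab
    · exact h2 (i, j)
    · rw [Sym2.eq_swap]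
      exact h2 (j, i)
    · simp [completeBipartiteGraph] at hab

section
variable {V : Type} [Fintype V] [DecidableEq V] (G : SimpleGraph V) (k : ℕ)

theorem sum_L3 : (∑ c : Sym2 V → Fin (k + 1), L3 (spG G c)) * (k + 1) ^ 3 =
    L3 G * (k + 1) ^ Fintype.card (Sym2 V) := by
  classical
  unfold L3
  rw [double_count (⊤ : SimpleGraph (Fin 3)) (fun c : Sym2 V → Fin (k + 1) => (spG G c).Adj),
    Finset.sum_mul]
  have h1 : ∀ φ : Fin 3 ↪ V, Nat.card {c : Sym2 V → Fin (k + 1) //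
      ∀ a b, (⊤ : SimpleGraph (Fin 3)).Adj a b → (spG G c).Adj (φ a) (φ b)} * (k + 1) ^ 3 =
      (if (∀ a b, (⊤ : SimpleGraph (Fin 3)).Adj a b → G.Adj (φ a) (φ b)) then 1 else 0) *
        (k + 1) ^ Fintype.card (Sym2 V) := by
    intro φ
    split_ifs with h
    · have h2 := zero_count k (ed3 φ)
      rw [Fintype.card_fin] at h2
      rw [one_mul, ← h2]
      congr 1
      refine Nat.card_congr (Equiv.subtypeEquivRight fun c => ?_)
      rw [tri_iff]
      exact ⟨fun h => h.2, fun h' => ⟨h, h'⟩⟩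
    · have : IsEmpty {c : Sym2 V → Fin (k + 1) //
          ∀ a b, (⊤ : SimpleGraph (Fin 3)).Adj a b → (spG G c).Adj (φ a) (φ b)} :=
        ⟨fun c => h ((tri_iff G c.1 φ).1 c.2).1⟩
      rw [Nat.card_of_isEmpty]
      simp
  rw [Finset.sum_congr rfl fun φ _ => h1 φ, ← Finset.sum_mul, ← Finset.card_filter,
    card_filter_eq]
  rfl

theorem sum_LB (t : ℕ) : (∑ c : Sym2 V → Fin (k + 1), LB t (spG G c)) * (k + 1) ^ (3 * t) =
    LB t G * (k + 1) ^ Fintype.card (Sym2 V) := by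
  classical
  unfold LB
  rw [double_count (completeBipartiteGraph (Fin 3) (Fin t))
    (fun c : Sym2 V → Fin (k + 1) => (spG G c).Adj), Finset.sum_mul]
  have h1 : ∀ φ : Fin 3 ⊕ Fin t ↪ V, Nat.card {c : Sym2 V → Fin (k + 1) //
      ∀ a b, (completeBipartiteGraph (Fin 3) (Fin t)).Adj a b → (spG G c).Adj (φ a) (φ b)} *
        (k + 1) ^ (3 * t) =
      (if (∀ a b, (completeBipartiteGraph (Fin 3) (Fin t)).Adj a b → G.Adj (φ a) (φ b))
        then 1 else 0) * (k + 1) ^ Fintype.card (Sym2 V) := by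
    intro φ
    split_ifs with h
    · have h2 := zero_count k (edB t φ)
      rw [Fintype.card_prod, Fintype.card_fin, Fintype.card_fin] at h2
      rw [one_mul, ← h2]
      congr 1
      refine Nat.card_congr (Equiv.subtypeEquivRight fun c => ?_)
      rw [bip_iff]
      exact ⟨fun h => h.2, fun h' => ⟨h, h'⟩⟩
    · have : IsEmpty {c : Sym2 V → Fin (k + 1) //
          ∀ a b, (completeBipartiteGraph (Fin 3) (Fin t)).Adj a b →
            (spG G c).Adj (φ a) (φ b)} :=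
        ⟨fun c => h ((bip_iff G c.1 φ).1 c.2).1⟩
      rw [Nat.card_of_isEmpty]
      simp
  rw [Finset.sum_congr rfl fun φ _ => h1 φ, ← Finset.sum_mul, ← Finset.card_filter,
    card_filter_eq]
  rfl

/-- two triangles share an edge -/
def share (φ ψ : Fin 3 ↪ V) : Prop := ∃ i j, ed3 φ i = ed3 ψ j

omit [DecidableEq V] in
theorem share_count (φ : Fin 3 ↪ V) : Nat.card {ψ : Fin 3 ↪ V // share φ ψ} ≤
    18 * Fintype.card V := by
  classical
  have h1 : ∀ ψ : {ψ : Fin 3 ↪ V // share φ ψ}, ∃ p : Fin 3 × Fin 3 × Bool,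
      (p.2.2 = true → φ p.1 = ψ.1 p.2.1 ∧ φ (p.1 + 1) = ψ.1 (p.2.1 + 1)) ∧
      (p.2.2 = false → φ p.1 = ψ.1 (p.2.1 + 1) ∧ φ (p.1 + 1) = ψ.1 p.2.1) := by
    rintro ⟨ψ, i, j, hij⟩
    have h2 : s(φ i, φ (i + 1)) = s(ψ j, ψ (j + 1)) := hij
    rw [Sym2.eq_iff] at h2
    rcases h2 with h2 | h2
    · exact ⟨(i, j, true), fun _ => h2, fun h => by simp at h⟩
    · exact ⟨(i, j, false), fun h => by simp at h, fun _ => h2⟩
  choose p hp1 hp2 using h1
  have hinj : Function.Injective (fun ψ : {ψ : Fin 3 ↪ V // share φ ψ} =>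
      (p ψ, ψ.1 ((p ψ).2.1 + 2))) := by
    intro ψ ψ' h
    have e1 : p ψ = p ψ' := congrArg Prod.fst h
    have e2 : ψ.1 ((p ψ).2.1 + 2) = ψ'.1 ((p ψ').2.1 + 2) := congrArg Prod.snd h
    rw [← e1] at e2
    have e3 : ψ.1 (p ψ).2.1 = ψ'.1 (p ψ).2.1 ∧ ψ.1 ((p ψ).2.1 + 1) = ψ'.1 ((p ψ).2.1 + 1) := by
      cases hb : (p ψ).2.2
      · have f1 := hp2 ψ hb
        have f2 := hp2 ψ' (by rw [← e1]; exact hb)
        rw [← e1] at f2
        exact ⟨f1.2.symm.trans f2.2, f1.1.symm.trans f2.1⟩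
      · have f1 := hp1 ψ hb
        have f2 := hp1 ψ' (by rw [← e1]; exact hb)
        rw [← e1] at f2
        exact ⟨f1.1.symm.trans f2.1, f1.2.symm.trans f2.2⟩
    apply Subtype.ext
    apply Function.Embedding.ext
    intro x
    have h3 : ∀ j x : Fin 3, x = j ∨ x = j + 1 ∨ x = j + 2 := by decide
    rcases h3 (p ψ).2.1 x with h | h | h
    · rw [h]; exact e3.1
    · rw [h]; exact e3.2
    · rw [h]; exact e2
  have h2 := Nat.card_le_card_of_injective _ hinj
  refine h2.trans (le_of_eq ?_)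
  simp only [Nat.card_eq_fintype_card, Fintype.card_prod, Fintype.card_fin, Fintype.card_bool]

omit [Fintype V] [DecidableEq V] in
theorem L3_spG (c : Sym2 V → Fin (k + 1)) : L3 (spG G c) =
    Nat.card {φ : Emb (⊤ : SimpleGraph (Fin 3)) G.Adj // ∀ i, c (ed3 φ.1 i) = 0} := by
  unfold L3
  exact Nat.card_congr
    { toFun := fun φ => ⟨⟨φ.1, ((tri_iff G c φ.1).1 φ.2).1⟩, ((tri_iff G c φ.1).1 φ.2).2⟩
      invFun := fun φ => ⟨φ.1.1, (tri_iff G c φ.1.1).2 ⟨φ.1.2, φ.2⟩⟩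
      left_inv := fun φ => rfl
      right_inv := fun φ => rfl }

omit G in
theorem dcount {C D : Type} [Fintype C] [Fintype D] (P : C → D → Prop) :
    ∑ c, Nat.card {d : D // P c d} = ∑ d, Nat.card {c : C // P c d} := by
  classical
  have h1 : ∀ c, Nat.card {d : D // P c d} = ∑ d, if P c d then 1 else 0 := by
    intro c
    rw [← Finset.card_filter, card_filter_eq]
  have h2 : ∀ d, Nat.card {c : C // P c d} = ∑ c, if P c d then 1 else 0 := by
    intro d
    rw [← Finset.card_filter, card_filter_eq]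
  simp_rw [h1, h2]
  exact Finset.sum_comm

theorem sum_L3_sq : (∑ c : Sym2 V → Fin (k + 1), (L3 (spG G c)) ^ 2) * (k + 1) ^ 6 ≤
    (L3 G ^ 2 + 18 * Fintype.card V * L3 G * (k + 1) ^ 3) * (k + 1) ^ Fintype.card (Sym2 V) := by
  classical
  set E3 := Emb (⊤ : SimpleGraph (Fin 3)) G.Adj with hE3
  have hF : Fintype E3 := Fintype.ofFinite _
  have hcard : L3 G = Fintype.card E3 := by
    unfold L3
    rw [Nat.card_eq_fintype_card]
  have hc : ∀ c : Sym2 V → Fin (k + 1), (L3 (spG G c)) ^ 2 =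
      Nat.card {p : E3 × E3 // (∀ i, c (ed3 p.1.1 i) = 0) ∧ ∀ i, c (ed3 p.2.1 i) = 0} := by
    intro c
    rw [L3_spG, sq, ← Nat.card_prod]
    exact Nat.card_congr
      { toFun := fun p => ⟨(p.1.1, p.2.1), p.1.2, p.2.2⟩
        invFun := fun p => (⟨p.1.1, p.2.1⟩, ⟨p.1.2, p.2.2⟩)
        left_inv := fun p => rfl
        right_inv := fun p => rfl }
  simp_rw [hc]
  rw [dcount, Finset.sum_mul]
  have h1 : ∀ p : E3 × E3, Nat.card {c : Sym2 V → Fin (k + 1) //
      (∀ i, c (ed3 p.1.1 i) = 0) ∧ ∀ i, c (ed3 p.2.1 i) = 0} * (k + 1) ^ 6 ≤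
      (1 + (if share p.1.1 p.2.1 then 1 else 0) * (k + 1) ^ 3) *
        (k + 1) ^ Fintype.card (Sym2 V) := by
    rintro ⟨φ, ψ⟩
    dsimp only
    by_cases h : share φ.1 ψ.1
    · rw [if_pos h]
      have h2 := zero_count k (ed3 φ.1)
      rw [Fintype.card_fin] at h2
      have h3 : Nat.card {c : Sym2 V → Fin (k + 1) //
          (∀ i, c (ed3 φ.1 i) = 0) ∧ ∀ i, c (ed3 ψ.1 i) = 0} ≤
          Nat.card {c : Sym2 V → Fin (k + 1) // ∀ i, c (ed3 φ.1 i) = 0} :=
        Nat.card_le_card_of_injective (fun c => ⟨c.1, c.2.1⟩)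
          (fun a b h => Subtype.ext (congrArg (fun x => x.1) h))
      calc _ ≤ Nat.card {c : Sym2 V → Fin (k + 1) // ∀ i, c (ed3 φ.1 i) = 0} * (k + 1) ^ 6 :=
            Nat.mul_le_mul_right _ h3
        _ = (k + 1) ^ 3 * (Nat.card {c : Sym2 V → Fin (k + 1) // ∀ i, c (ed3 φ.1 i) = 0} *
              (k + 1) ^ 3) := by ring
        _ = (k + 1) ^ 3 * (k + 1) ^ Fintype.card (Sym2 V) := by rw [h2]
        _ ≤ _ := by
            apply Nat.mul_le_mul_right
            omega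
    · rw [if_neg h]
      let j : Fin 3 ⊕ Fin 3 ↪ Sym2 V := ⟨Sum.elim (ed3 φ.1) (ed3 ψ.1), by
        rintro (a | a) (b | b) hab
        · exact congrArg _ ((ed3 φ.1).injective hab)
        · exact absurd ⟨a, b, hab⟩ h
        · exact absurd ⟨b, a, hab.symm⟩ h
        · exact congrArg _ ((ed3 ψ.1).injective hab)⟩
      have h2 := zero_count k j
      rw [Fintype.card_sum, Fintype.card_fin] at h2
      rw [zero_mul, add_zero, one_mul, ← h2]
      apply le_of_eq
      congr 1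
      refine Nat.card_congr (Equiv.subtypeEquivRight fun c => ?_)
      constructor
      · rintro ⟨h3, h4⟩ (a | a)
        · exact h3 a
        · exact h4 a
      · intro h3
        exact ⟨fun a => h3 (Sum.inl a), fun a => h3 (Sum.inr a)⟩
  refine (Finset.sum_le_sum fun p _ => h1 p).trans ?_
  rw [← Finset.sum_mul]
  apply Nat.mul_le_mul_right
  rw [Finset.sum_add_distrib, ← Finset.sum_mul, Finset.sum_const, Finset.card_univ,
    Fintype.card_prod, ← hcard, smul_eq_mul, mul_one, ← sq]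
  apply Nat.add_le_add_left
  apply Nat.mul_le_mul_right
  rw [Fintype.sum_prod_type]
  have h2 : ∀ φ : E3, (∑ ψ : E3, if share φ.1 ψ.1 then 1 else 0) ≤ 18 * Fintype.card V := by
    intro φ
    rw [← Finset.card_filter, card_filter_eq]
    refine le_trans ?_ (share_count φ.1)
    exact Nat.card_le_card_of_injective (fun ψ => ⟨ψ.1.1, ψ.2⟩)
      (fun a b h => Subtype.ext (Subtype.ext (congrArg (fun x => x.1) h)))
  refine (Finset.sum_le_sum fun φ _ => h2 φ).trans ?_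
  rw [Finset.sum_const, Finset.card_univ, ← hcard, smul_eq_mul]
  apply le_of_eq
  ring

/-- random sparsification, with a prescribed number of triangles -/
theorem sparse (t : ℕ) (B a : ℝ) (hB : 0 < B) (hL : (LB t G : ℝ) ≤ B * (k + 1) ^ (3 * t))
    (ha : (L3 G : ℝ) = a * (k + 1) ^ 3) (ha2 : 144 * (Fintype.card V : ℝ) ≤ a) (ha0 : 0 < a) :
    ∃ G' : SimpleGraph V, a / 2 ≤ L3 G' ∧ (L3 G' : ℝ) ≤ 3 * a / 2 ∧ (LB t G' : ℝ) ≤ 4 * B := by
  classical
  set q : ℝ := (k : ℝ) + 1 with hq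
  have hq0 : 0 < q := by positivity
  set M := Fintype.card (Sym2 V) with hM
  set N : ℝ := q ^ M with hN
  have hN0 : 0 < N := by positivity
  have hNc : (Fintype.card (Sym2 V → Fin (k + 1)) : ℝ) = N := by
    rw [Fintype.card_fun, Fintype.card_fin]
    push_cast
    rfl
  have h1 : ∑ c : Sym2 V → Fin (k + 1), (L3 (spG G c) : ℝ) = N * a := by
    have := congrArg (Nat.cast : ℕ → ℝ) (sum_L3 G k)
    push_cast at this
    rw [← hq, ha] at this
    apply mul_right_cancel₀ (pow_pos hq0 3).ne'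
    rw [this]
    ring
  have h2 : ∑ c : Sym2 V → Fin (k + 1), (LB t (spG G c) : ℝ) ≤ N * B := by
    have := congrArg (Nat.cast : ℕ → ℝ) (sum_LB G k t)
    push_cast at this
    rw [← hq] at this
    apply le_of_mul_le_mul_right _ (pow_pos hq0 (3 * t))
    rw [this]
    calc (LB t G : ℝ) * N ≤ B * q ^ (3 * t) * N := mul_le_mul_of_nonneg_right hL hN0.le
      _ = _ := by ring
  have h3 : ∑ c : Sym2 V → Fin (k + 1), (L3 (spG G c) : ℝ) ^ 2 ≤
      N * (a ^ 2 + 18 * Fintype.card V * a) := by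
    have h4 : (((∑ c : Sym2 V → Fin (k + 1), (L3 (spG G c)) ^ 2) * (k + 1) ^ 6 : ℕ) : ℝ) ≤
      (((L3 G ^ 2 + 18 * Fintype.card V * L3 G * (k + 1) ^ 3) *
        (k + 1) ^ Fintype.card (Sym2 V) : ℕ) : ℝ) := by exact_mod_cast sum_L3_sq G k
    push_cast at h4
    rw [← hq, ha] at h4
    apply le_of_mul_le_mul_right _ (pow_pos hq0 6)
    refine h4.trans (le_of_eq ?_)
    ring
  have h4 : ∑ c : Sym2 V → Fin (k + 1), ((L3 (spG G c) : ℝ) - a) ^ 2 ≤
      N * (18 * Fintype.card V * a) := by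
    have : ∀ c : Sym2 V → Fin (k + 1), ((L3 (spG G c) : ℝ) - a) ^ 2 =
        (L3 (spG G c) : ℝ) ^ 2 - 2 * a * (L3 (spG G c) : ℝ) + a ^ 2 := fun c => by ring
    simp_rw [this]
    rw [Finset.sum_add_distrib, Finset.sum_sub_distrib, ← Finset.mul_sum, h1, Finset.sum_const,
      Finset.card_univ, nsmul_eq_mul, hNc]
    nlinarith
  by_contra hcon
  push Not at hcon
  have h5 : ∀ c : Sym2 V → Fin (k + 1), (1 : ℝ) ≤
      4 / a ^ 2 * ((L3 (spG G c) : ℝ) - a) ^ 2 + 1 / (4 * B) * (LB t (spG G c) : ℝ) := by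
    intro c
    have p1 : 0 ≤ 4 / a ^ 2 * ((L3 (spG G c) : ℝ) - a) ^ 2 := by positivity
    have p2 : 0 ≤ 1 / (4 * B) * (LB t (spG G c) : ℝ) := by positivity
    have key : (a / 2) ^ 2 ≤ ((L3 (spG G c) : ℝ) - a) ^ 2 →
        (1 : ℝ) ≤ 4 / a ^ 2 * ((L3 (spG G c) : ℝ) - a) ^ 2 := by
      intro h
      calc (1 : ℝ) = 4 / a ^ 2 * (a / 2) ^ 2 := by field_simp; norm_num
        _ ≤ _ := mul_le_mul_of_nonneg_left h (by positivity)
    by_cases h6 : a / 2 ≤ (L3 (spG G c) : ℝ)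
    · by_cases h7 : (L3 (spG G c) : ℝ) ≤ 3 * a / 2
      · have h8 := hcon (spG G c) h6 h7
        have : (1 : ℝ) ≤ 1 / (4 * B) * (LB t (spG G c) : ℝ) := by
          rw [one_div, ← div_eq_inv_mul, le_div_iff₀ (by positivity)]
          linarith
        linarith
      · have := key (by nlinarith [not_le.1 h7])
        linarith
    · have := key (by nlinarith [not_le.1 h6])
      linarith
  have h6 := Finset.sum_le_sum (s := univ) fun c _ => h5 c
  rw [Finset.sum_const, Finset.card_univ, nsmul_eq_mul, hNc, Finset.sum_add_distrib,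
    ← Finset.mul_sum, ← Finset.mul_sum] at h6
  have h7 : 4 / a ^ 2 * ∑ c : Sym2 V → Fin (k + 1), ((L3 (spG G c) : ℝ) - a) ^ 2 ≤ N / 2 := by
    calc _ ≤ 4 / a ^ 2 * (N * (18 * Fintype.card V * a)) :=
          mul_le_mul_of_nonneg_left h4 (by positivity)
      _ = N * (72 * Fintype.card V / a) := by field_simp; ring
      _ ≤ N * (1 / 2) := by
          apply mul_le_mul_of_nonneg_left _ hN0.le
          rw [div_le_iff₀ ha0]
          linarith
      _ = N / 2 := by ring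
  have h8 : 1 / (4 * B) * ∑ c : Sym2 V → Fin (k + 1), (LB t (spG G c) : ℝ) ≤ N / 4 := by
    calc _ ≤ 1 / (4 * B) * (N * B) := mul_le_mul_of_nonneg_left h2 (by positivity)
      _ = N / 4 := by field_simp
  linarith

end

end Pool.Agent.KS6_59.TS
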